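import Pool.Agent.W_MP_b7d892_co.Final

set_option autoImplicit false

namespace Pool.Agent.Results.MP_b7d892_co.EveryNimValue

open Pool.Agent.W_MP_b7d892_co

/-- **Answer to Q1: the nim-values of Duotaire are unbounded.** Every natural number `k` is the
nim-value of a position on a (nonempty) strip with at most `5 k + 1` cells. The strip
`(0101011011)^n 1` has nim-value `2 n`, and `011 (0101011011)^n 1` has nim-value `2 n + 1`. -/
theorem result :
    ∀ k : ℕ, ∃ w : List Bool, w ≠ [] ∧ w.length ≤ 5 * k + 1 ∧ nimValue w = k :=
  every_value

end Pool.Agent.Results.MP_b7d892_co.EveryNimValue
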